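import Mathlib
import Pool.Agent.TH167.SH.Conv
import Pool.Agent.TH167.SH.Defs
import Pool.Agent.Y939.XN.Many

set_option autoImplicit false

/-!
# The strong Nagata conjecture for curves through many points; size of a counterexample

Let `P 1, …, P n` be very general points of the complex projective plane.

* Every plane curve of degree `d`, irreducible or not, with multiplicities at least `m i` at the
  points, where `m i ≤ μ` and `∑ m i ≥ 25000 (μ + 1) ^ 2`, satisfies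
  `d ^ 2 + 3 d ≥ ∑ m i ^ 2 + ∑ m i` and `d ^ 2 ≥ ∑ m i ^ 2 + (∑ m i) / 2`.
* Let `C` be an irreducible curve of degree `d` with multiplicities exactly `m i ≤ μ` and with
  `C ^ 2 = d ^ 2 - ∑ m i ^ 2 < 0`. Two different multiplicities of `C` differ by at least
  `√(- C ^ 2)`, and if `∑ m i ^ 2 ≥ 144 μ ^ 2`, then
  `- C ^ 2 (∑ m i ^ 2 - 24 μ ^ 2) ^ 2 ≤ 256 μ ^ 6`.

So the strong Nagata conjecture holds for all curves with `∑ m i ≥ 25000 (max m i + 1) ^ 2`.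
-/

namespace Pool.Agent.Results.MP_b180eb_ag.ManyPoints

open MvPolynomial Pool.Agent.TH167 Pool.Agent.TH167.SHDefs

theorem result (n : ℕ) :
    ∃ Z : ℕ → MvPolynomial (Fin n × Fin 2) ℂ, (∀ k, Z k ≠ 0) ∧
      ∀ P : Fin n → Fin 2 → ℂ,
        (∀ k, MvPolynomial.eval (fun ij : Fin n × Fin 2 => P ij.1 ij.2) (Z k) ≠ 0) →
        (∀ (d μ : ℕ) (m : Fin n → ℕ), (∀ i, m i ≤ μ) → 25000 * (μ + 1) ^ 2 ≤ ∑ i, m i →
          ∀ F ∈ sys P d m, F ≠ 0 →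
            ∑ i, m i ^ 2 + ∑ i, m i ≤ d ^ 2 + 3 * d ∧ 2 * ∑ i, m i ^ 2 + ∑ i, m i ≤ 2 * d ^ 2) ∧
        ∀ (d : ℕ) (m : Fin n → ℕ) (C : MvPolynomial (Fin 3) ℂ), Curve P C d m →
          inter d m d m < 0 →
          (∀ i j, m i ≠ m j → -inter d m d m ≤ ((m i : ℤ) - m j) ^ 2) ∧
          ∀ μ : ℕ, (∀ i, m i ≤ μ) → 144 * μ ^ 2 ≤ ∑ i, m i ^ 2 →
            -inter d m d m * (∑ i, (m i : ℤ) ^ 2 - 24 * (μ : ℤ) ^ 2) ^ 2 ≤ 256 * (μ : ℤ) ^ 6 := by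
  obtain ⟨Z, hZ, h⟩ := Pool.Agent.Y939.XN.neg_sep n
  refine ⟨Z, hZ, fun P hP0 => ?_⟩
  obtain ⟨hP, hmain⟩ := h P hP0
  refine ⟨fun d μ m hμ hl F hF hF0 => ?_, fun d w C hC hneg => ?_⟩
  · rw [SH.sys_eq, SH.mem_VS] at hF
    obtain ⟨h1, h2⟩ := hF
    exact Pool.Agent.Y939.XN.many hP hF0 h1 h2 hμ hl
  obtain ⟨h1, h2, h3⟩ := SH.curve_iff.1 hC
  have e1 : ∑ i, (w i : ℤ) * w i = ((∑ i, w i ^ 2 : ℕ) : ℤ) := by
    push_cast
    exact Finset.sum_congr rfl fun i _ => by ring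
  have e2 : inter d w d w = (d : ℤ) ^ 2 - ((∑ i, w i ^ 2 : ℕ) : ℤ) := by
    unfold inter
    rw [e1]
    ring
  rw [e2] at hneg ⊢
  have h4 : d ^ 2 < ∑ i, w i ^ 2 := by
    have h5 : ((d ^ 2 : ℕ) : ℤ) < ((∑ i, w i ^ 2 : ℕ) : ℤ) := by
      push_cast at hneg ⊢
      linarith
    exact_mod_cast h5
  obtain ⟨k, hk⟩ : ∃ k, ∑ i, w i ^ 2 = d ^ 2 + k := ⟨∑ i, w i ^ 2 - d ^ 2, by omega⟩
  have e3 : -((d : ℤ) ^ 2 - ((∑ i, w i ^ 2 : ℕ) : ℤ)) = (k : ℤ) := by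
    rw [hk]
    push_cast
    ring
  rw [e3]
  obtain ⟨h5, h6⟩ := hmain C d k w h1 h2 h3 (by omega) hk
  refine ⟨h5, fun μ hμ h144 => ?_⟩
  have h7 := h6 μ hμ h144
  have e4 : ((∑ i, w i ^ 2 : ℕ) : ℤ) = ∑ i, (w i : ℤ) ^ 2 := by push_cast; rfl
  rw [e4] at h7
  exact h7

end Pool.Agent.Results.MP_b180eb_ag.ManyPoints
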